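import Pool.Agent.Helper49.SO.Defs
import Pool.Agent.Helper24.UG.Mass

/-!
# SO4: smoothing of the main term
-/

set_option autoImplicit false
open MeasureTheory Set Filter Topology
open Pool.Agent.Helper54.LG
open Pool.Agent.Helper49.SO

namespace Pool.Agent.Helper26.SO

/-- `(1+r) log |1+r| + (1-r) log |1-r|` -/
noncomputable def ph (r : ℝ) : ℝ := (1 + r) * Real.log (1 + r) + (1 - r) * Real.log (1 - r)

lemma ph_neg (r : ℝ) : ph (-r) = ph r := by
  unfold ph
  rw [sub_neg_eq_add, ← sub_eq_add_neg]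
  ring

lemma xlog_le {x : ℝ} (hx : |x| ≤ 1) : |x * Real.log x| ≤ 1 := by
  rcases eq_or_ne x 0 with rfl | h0
  · simp
  have h1 : 0 < |x| := abs_pos.mpr h0
  rw [abs_mul, ← Real.log_abs x]
  have h2 : Real.log |x| ≤ 0 := Real.log_nonpos h1.le hx
  rw [abs_of_nonpos h2]
  have h3 := Real.one_sub_inv_le_log_of_pos h1
  have h4 : |x| * (-Real.log |x|) ≤ |x| * (|x|⁻¹ - 1) := mul_le_mul_of_nonneg_left (by linarith) h1.le
  rw [mul_sub, mul_inv_cancel₀ h1.ne'] at h4
  linarith

lemma ph_small {r : ℝ} (h0 : 0 ≤ r) (h1 : r ≤ 1 / 2) : |ph r| ≤ 2 * r ^ 2 := by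
  unfold ph
  have a1 : 0 < 1 + r := by linarith
  have a2 : 0 < 1 - r := by linarith
  have b1 := Real.log_le_sub_one_of_pos a1
  have b2 := Real.log_le_sub_one_of_pos a2
  have c1 := Real.one_sub_inv_le_log_of_pos a1
  have c2 := Real.one_sub_inv_le_log_of_pos a2
  have d1 : (1 + r) * (1 - (1 + r)⁻¹) ≤ (1 + r) * Real.log (1 + r) := mul_le_mul_of_nonneg_left c1 a1.le
  have d2 : (1 - r) * (1 - (1 - r)⁻¹) ≤ (1 - r) * Real.log (1 - r) := mul_le_mul_of_nonneg_left c2 a2.le
  rw [mul_sub, mul_inv_cancel₀ a1.ne'] at d1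
  rw [mul_sub, mul_inv_cancel₀ a2.ne'] at d2
  have e1 : (1 + r) * Real.log (1 + r) ≤ (1 + r) * (1 + r - 1) := mul_le_mul_of_nonneg_left b1 a1.le
  have e2 : (1 - r) * Real.log (1 - r) ≤ (1 - r) * (1 - r - 1) := mul_le_mul_of_nonneg_left b2 a2.le
  rw [abs_le]
  constructor
  · nlinarith
  · nlinarith

lemma ph_large {r : ℝ} (h0 : 1 / 2 ≤ r) : |ph r| ≤ 7 * √(1 + r) := by
  have hs1 : 1 ≤ √(1 + r) := Real.one_le_sqrt.mpr (by linarith)
  by_cases h2 : r ≤ 2
  · unfold ph
    have a1 : 0 < 1 + r := by linarith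
    have b1 := Real.log_le_sub_one_of_pos a1
    have b2 : 0 ≤ Real.log (1 + r) := Real.log_nonneg (by linarith)
    have c1 : |(1 + r) * Real.log (1 + r)| ≤ 6 := by
      rw [abs_of_nonneg (by positivity)]
      nlinarith
    have c2 : |(1 - r) * Real.log (1 - r)| ≤ 1 := xlog_le (by rw [abs_le]; constructor <;> linarith)
    calc |(1 + r) * Real.log (1 + r) + (1 - r) * Real.log (1 - r)| ≤ _ := abs_add_le _ _
      _ ≤ 7 := by linarith
      _ ≤ 7 * √(1 + r) := by linarith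
  · push Not at h2
    have a1 : 0 < 1 + r := by linarith
    have a2 : 0 < r - 1 := by linarith
    have e : ph r = (1 + r) * Real.log (1 + r) - (r - 1) * Real.log (r - 1) := by
      unfold ph
      rw [← Real.log_neg_eq_log (1 - r), neg_sub]
      ring
    have l1 : 0 ≤ Real.log (r - 1) := Real.log_nonneg (by linarith)
    have l2 : Real.log (r - 1) ≤ Real.log (1 + r) := Real.log_le_log a2 (by linarith)
    have l3 : Real.log (1 + r) - Real.log (r - 1) ≤ 2 / (r - 1) := by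
      rw [← Real.log_div a1.ne' a2.ne']
      refine (Real.log_le_sub_one_of_pos (by positivity)).trans (le_of_eq ?_)
      field_simp
      ring
    have l4 : (r - 1) * (Real.log (1 + r) - Real.log (r - 1)) ≤ 2 := by
      calc (r - 1) * (Real.log (1 + r) - Real.log (r - 1)) ≤ (r - 1) * (2 / (r - 1)) := mul_le_mul_of_nonneg_left l3 a2.le
        _ = 2 := by field_simp
    have l5 : Real.log (1 + r) ≤ 2 * (√(1 + r) - 1) := by
      have h3 := Real.log_le_sub_one_of_pos (Real.sqrt_pos.mpr a1)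
      rw [Real.log_sqrt a1.le] at h3
      linarith
    rw [e, abs_le]
    constructor
    · nlinarith
    · nlinarith

lemma ph_bd (r : ℝ) : |ph r| ≤ 63 * (r ^ 2 * (1 + ‖r‖) ^ (-(3 / 2) : ℝ)) := by
  wlog h0 : 0 ≤ r with H
  · have := H (-r) (by linarith)
    rwa [ph_neg, norm_neg, neg_sq] at this
  rw [Real.norm_of_nonneg h0]
  have hu : 0 < 1 + r := by linarith
  by_cases h1 : r ≤ 1 / 2
  · have h2 : (1 / 4 : ℝ) ≤ (1 + r) ^ (-(3 / 2) : ℝ) := by
      rw [Real.rpow_neg hu.le]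
      rw [show (1 / 4 : ℝ) = ((4 : ℝ))⁻¹ by norm_num]
      apply inv_anti₀ (by positivity)
      calc (1 + r) ^ (3 / 2 : ℝ) ≤ 2 ^ (3 / 2 : ℝ) := Real.rpow_le_rpow hu.le (by linarith) (by norm_num)
        _ ≤ 2 ^ (2 : ℝ) := Real.rpow_le_rpow_of_exponent_le (by norm_num) (by norm_num)
        _ = 4 := by norm_num
    have h3 := ph_small h0 h1
    have h4 : r ^ 2 * (1 / 4) ≤ r ^ 2 * (1 + r) ^ (-(3 / 2) : ℝ) := mul_le_mul_of_nonneg_left h2 (sq_nonneg r)
    nlinarith [sq_nonneg r]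
  · push Not at h1
    have h2 : √(1 + r) / 9 ≤ r ^ 2 * (1 + r) ^ (-(3 / 2) : ℝ) := by
      have h3 : (1 + r) ^ 2 / 9 ≤ r ^ 2 := by nlinarith
      have h4 : √(1 + r) / 9 = (1 + r) ^ 2 / 9 * (1 + r) ^ (-(3 / 2) : ℝ) := by
        rw [Real.sqrt_eq_rpow, div_mul_eq_mul_div, ← Real.rpow_two, ← Real.rpow_add hu]
        norm_num
      rw [h4]
      exact mul_le_mul_of_nonneg_right h3 (by positivity)
    have h3 := ph_large h1.le
    linarith

lemma ph_bd2 (r : ℝ) (hr : 0 ≤ r) : |ph r| ≤ 63 * (r ^ 2 / (1 + r)) := by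
  have h1 := ph_bd r
  rw [Real.norm_of_nonneg hr] at h1
  have hu : 0 < 1 + r := by linarith
  have h2 : (1 + r) ^ (-(3 / 2) : ℝ) ≤ (1 + r)⁻¹ := by
    rw [← Real.rpow_neg_one]
    exact Real.rpow_le_rpow_of_exponent_le (by linarith) (by norm_num)
  have h3 : r ^ 2 * (1 + r) ^ (-(3 / 2) : ℝ) ≤ r ^ 2 * (1 + r)⁻¹ := mul_le_mul_of_nonneg_left h2 (sq_nonneg r)
  rw [div_eq_mul_inv]
  linarith

/-! ### the main term -/

lemma mn_mul {y : ℝ} (hy : y ≠ 0) (x : ℝ) :
    mn (y * x) = y / (2 * Real.pi) * (x * (Real.log (y / (2 * Real.pi * Real.exp 1)) + Real.log x)) := by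
  rcases eq_or_ne x 0 with rfl | hx
  · simp [mn]
  unfold mn
  have hp : 2 * Real.pi * Real.exp 1 ≠ 0 := by
    have := Real.pi_pos
    positivity
  have e : y * x / (2 * Real.pi * Real.exp 1) = y / (2 * Real.pi * Real.exp 1) * x := by ring
  rw [e, Real.log_mul (div_ne_zero hy hp) hx]
  ring

lemma mn_zero : mn 0 = 0 := by simp [mn]

lemma mn_neg (t : ℝ) : mn (-t) = -mn t := by
  unfold mn
  rw [neg_div, neg_div, Real.log_neg_eq_log]
  ring

lemma mn_cont : Continuous mn := by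
  have hp : 2 * Real.pi * Real.exp 1 ≠ 0 := by
    have := Real.pi_pos
    positivity
  have e : mn = fun t => Real.exp 1 * ((t / (2 * Real.pi * Real.exp 1)) * Real.log (t / (2 * Real.pi * Real.exp 1))) := by
    funext t
    unfold mn
    have h1 : Real.exp 1 ≠ 0 := (Real.exp_pos 1).ne'
    have h2 : Real.pi ≠ 0 := Real.pi_ne_zero
    field_simp
  rw [e]
  exact continuous_const.mul (Real.continuous_mul_log.comp (continuous_id.div_const _))

theorem mn_deriv {y : ℝ} (hy : 0 < y) : HasDerivAt mn (1 / (2 * Real.pi) * Real.log (y / (2 * Real.pi))) y := by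
  have hpi := Real.pi_pos
  have he := Real.exp_pos 1
  have hp : 2 * Real.pi * Real.exp 1 ≠ 0 := by positivity
  have hy0 : y / (2 * Real.pi * Real.exp 1) ≠ 0 := by positivity
  have h1 : HasDerivAt (fun t : ℝ => t / (2 * Real.pi)) (1 / (2 * Real.pi)) y := (hasDerivAt_id y).div_const _
  have h2 : HasDerivAt (fun t : ℝ => Real.log (t / (2 * Real.pi * Real.exp 1)))
      (1 / (2 * Real.pi * Real.exp 1) / (y / (2 * Real.pi * Real.exp 1))) y :=
    ((hasDerivAt_id y).div_const _).log hy0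
  have h3 := h1.mul h2
  have e : 1 / (2 * Real.pi) * Real.log (y / (2 * Real.pi * Real.exp 1)) +
      y / (2 * Real.pi) * (1 / (2 * Real.pi * Real.exp 1) / (y / (2 * Real.pi * Real.exp 1))) =
      1 / (2 * Real.pi) * Real.log (y / (2 * Real.pi)) := by
    have h4 : Real.log (y / (2 * Real.pi * Real.exp 1)) = Real.log (y / (2 * Real.pi)) - 1 := by
      rw [← div_div, Real.log_div (by positivity) he.ne', Real.log_exp]
    rw [h4]
    field_simp
    ring
  rw [← e]
  exact h3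

/-- second difference. -/
noncomputable def De (y s : ℝ) : ℝ := mn (y + s) + mn (y - s) - 2 * mn y

lemma De_eq {y : ℝ} (hy : y ≠ 0) (s : ℝ) : De y s = y / (2 * Real.pi) * ph (s / y) := by
  unfold De
  have e1 : y + s = y * (1 + s / y) := by field_simp
  have e2 : y - s = y * (1 - s / y) := by field_simp
  have e3 : mn y = mn (y * 1) := by rw [mul_one]
  rw [e1, e2, e3, mn_mul hy, mn_mul hy, mn_mul hy, Real.log_one]
  unfold ph
  ring

lemma De_cont (y : ℝ) : Continuous (De y) := by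
  unfold De
  exact ((mn_cont.comp (continuous_const.add continuous_id)).add
    (mn_cont.comp (continuous_const.sub continuous_id))).sub continuous_const

lemma De_cont2 (y : ℝ) : Continuous (fun s => De s y) := by
  unfold De
  exact ((mn_cont.comp (continuous_id.add continuous_const)).add
    (mn_cont.comp (continuous_id.sub continuous_const))).sub (continuous_const.mul mn_cont)

lemma De_odd (y s : ℝ) : De (-s) y = -De s y := by
  unfold De
  rw [show -s + y = -(s - y) by ring, show -s - y = -(s + y) by ring, mn_neg, mn_neg, mn_neg]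
  ring

lemma De_bd2 {y : ℝ} (hy : 0 < y) (s : ℝ) : |De s y| ≤ 63 * y := by
  have hpi := Real.pi_gt_three
  wlog h0 : 0 ≤ s with H
  · have := H hy (-s) (by assumption) (by linarith)
    rwa [De_odd, abs_neg] at this
  rcases eq_or_lt_of_le h0 with rfl | hs
  · unfold De
    rw [zero_add, zero_sub, mn_neg, mn_zero]
    simp
    positivity
  rw [De_eq hs.ne', abs_mul, abs_of_pos (by positivity)]
  have h1 := ph_bd2 (y / s) (by positivity)
  have e : s * (63 * ((y / s) ^ 2 / (1 + y / s))) = 63 * y * (y / (s + y)) := by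
    field_simp
  have h2 : y / (s + y) ≤ 1 := by
    rw [div_le_one (by positivity)]
    linarith
  calc s / (2 * Real.pi) * |ph (y / s)| ≤ s * (63 * ((y / s) ^ 2 / (1 + y / s))) := by
        apply mul_le_mul _ h1 (abs_nonneg _) hs.le
        apply div_le_self hs.le
        linarith
    _ = 63 * y * (y / (s + y)) := e
    _ ≤ 63 * y * 1 := by gcongr
    _ = 63 * y := mul_one _

lemma D_split (y₁ y₂ s : ℝ) : mn (y₂ + s) - mn (y₁ + s) = (mn y₂ - mn y₁) + (De y₂ s - De y₁ s) / 2 +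
    (De s y₂ - De s y₁) / 2 := by
  unfold De
  rw [show y₂ - s = -(s - y₂) by ring, show y₁ - s = -(s - y₁) by ring, mn_neg, mn_neg, add_comm s y₂, add_comm s y₁]
  ring

lemma kX_cont (X : ℝ) : Continuous (kX X) := by
  unfold kX
  exact continuous_const.mul ((qk_cont 0).comp (continuous_const.mul continuous_id))

lemma kX_nonneg {X : ℝ} (hX : 0 < X) (s : ℝ) : 0 ≤ kX X s := by
  unfold kX
  have := qk_zero_nonneg (X * s)
  have := Real.pi_pos
  positivity

lemma kX_even (X s : ℝ) : kX X (-s) = kX X s := by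
  unfold kX
  rw [mul_neg, qk_neg_right]

lemma kX_mass {X : ℝ} (hX : 0 < X) : Integrable (kX X) ∧ ∫ s, kX X s = 1 := by
  have h := Pool.Agent.Helper24.UG.qk_mass hX
  exact ⟨h.1, h.2.1⟩

lemma kX_sq {X : ℝ} (hX : 0 < X) (s : ℝ) : kX X s * s ^ 2 ≤ 8 / (2 * Real.pi * X) := by
  have h1 := Pool.Agent.Helper24.UG.qk_le (X * s)
  have hpi := Real.pi_pos
  unfold kX
  rw [le_div_iff₀ (by positivity)]
  calc X / (2 * Real.pi) * qk 0 (X * s) * s ^ 2 * (2 * Real.pi * X) = (X * s) ^ 2 * qk 0 (X * s) := by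
        field_simp
    _ ≤ 8 := h1

lemma w_int : Integrable (fun r : ℝ => (1 + ‖r‖) ^ (-(3 / 2) : ℝ)) := by
  have := integrable_one_add_norm (E := ℝ) (μ := volume) (r := 3 / 2) (by
    rw [Module.finrank_self]
    norm_num)
  exact this

/-- the even part. -/
lemma even_part {X y : ℝ} (hX : 0 < X) (hy : 0 < y) : Integrable (fun s => kX X s * De y s) ∧
    |∫ s, kX X s * De y s| ≤ 21 * (∫ r : ℝ, (1 + ‖r‖) ^ (-(3 / 2) : ℝ)) / X := by
  have hpi := Real.pi_gt_three
  have hpt : ∀ s, ‖kX X s * De y s‖ ≤ 21 / (X * y) * (1 + ‖s / y‖) ^ (-(3 / 2) : ℝ) := by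
    intro s
    have h1 := ph_bd (s / y)
    have h2 := kX_nonneg hX s
    have h3 := kX_sq hX s
    rw [norm_mul, Real.norm_of_nonneg h2, Real.norm_eq_abs, De_eq hy.ne', abs_mul, abs_of_pos (by positivity)]
    have hw : 0 ≤ (1 + ‖s / y‖) ^ (-(3 / 2) : ℝ) := by positivity
    calc kX X s * (y / (2 * Real.pi) * |ph (s / y)|) ≤
        kX X s * (y / (2 * Real.pi) * (63 * ((s / y) ^ 2 * (1 + ‖s / y‖) ^ (-(3 / 2) : ℝ)))) := by gcongr
      _ = (kX X s * s ^ 2) * (63 / (2 * Real.pi * y)) * (1 + ‖s / y‖) ^ (-(3 / 2) : ℝ) := by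
          field_simp
      _ ≤ 8 / (2 * Real.pi * X) * (63 / (2 * Real.pi * y)) * (1 + ‖s / y‖) ^ (-(3 / 2) : ℝ) := by gcongr
      _ = 126 / Real.pi ^ 2 / (X * y) * (1 + ‖s / y‖) ^ (-(3 / 2) : ℝ) := by
          field_simp
          ring
      _ ≤ 21 / (X * y) * (1 + ‖s / y‖) ^ (-(3 / 2) : ℝ) := by
          gcongr
          rw [div_le_iff₀ (by positivity)]
          nlinarith
  have hwi : Integrable (fun s : ℝ => (1 + ‖s / y‖) ^ (-(3 / 2) : ℝ)) := w_int.comp_div hy.ne'
  have hwv : ∫ s : ℝ, (1 + ‖s / y‖) ^ (-(3 / 2) : ℝ) = y * ∫ r : ℝ, (1 + ‖r‖) ^ (-(3 / 2) : ℝ) := by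
    have := Measure.integral_comp_div (fun r : ℝ => (1 + ‖r‖) ^ (-(3 / 2) : ℝ)) y
    rw [this, abs_of_pos hy, smul_eq_mul]
  have hint : Integrable (fun s => kX X s * De y s) :=
    (hwi.const_mul (21 / (X * y))).mono' ((kX_cont X).mul (De_cont y)).aestronglyMeasurable (Eventually.of_forall hpt)
  refine ⟨hint, ?_⟩
  rw [← Real.norm_eq_abs]
  refine (norm_integral_le_of_norm_le (hwi.const_mul (21 / (X * y))) (Eventually.of_forall hpt)).trans (le_of_eq ?_)
  rw [integral_const_mul, hwv]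
  field_simp

/-- the odd part. -/
lemma odd_part {X y : ℝ} (hX : 0 < X) (hy : 0 < y) : Integrable (fun s => kX X s * De s y) ∧
    ∫ s, kX X s * De s y = 0 := by
  constructor
  · refine ((kX_mass hX).1.const_mul (63 * y)).mono' ((kX_cont X).mul (De_cont2 y)).aestronglyMeasurable
      (Eventually.of_forall fun s => ?_)
    rw [norm_mul, Real.norm_of_nonneg (kX_nonneg hX s), mul_comm]
    exact mul_le_mul_of_nonneg_right (De_bd2 hy s) (kX_nonneg hX s)
  · have h := integral_neg_eq_self (fun s => kX X s * De s y) volume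
    simp only [kX_even, De_odd, mul_neg, integral_neg] at h
    linarith

theorem mn_smooth : ∃ C : ℝ, 0 < C ∧ ∀ X y₁ y₂ : ℝ, 1 / 2 ≤ X → 1 ≤ y₁ → 1 ≤ y₂ →
    Integrable (fun s => kX X s * (mn (y₂ + s) - mn (y₁ + s))) ∧
    |(∫ s, kX X s * (mn (y₂ + s) - mn (y₁ + s))) - (mn y₂ - mn y₁)| ≤ C := by
  set J : ℝ := ∫ r : ℝ, (1 + ‖r‖) ^ (-(3 / 2) : ℝ) with hJ
  have hJ0 : 0 ≤ J := integral_nonneg fun r => by positivity
  refine ⟨42 * J + 1, by positivity, fun X y₁ y₂ hX h1 h2 => ?_⟩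
  have hX0 : 0 < X := by linarith
  have a1 := even_part hX0 (show 0 < y₁ by linarith)
  have a2 := even_part hX0 (show 0 < y₂ by linarith)
  have b1 := odd_part hX0 (show 0 < y₁ by linarith)
  have b2 := odd_part hX0 (show 0 < y₂ by linarith)
  have m := kX_mass hX0
  have e : (fun s => kX X s * (mn (y₂ + s) - mn (y₁ + s))) = fun s =>
      (kX X s * (mn y₂ - mn y₁) + (kX X s * De y₂ s - kX X s * De y₁ s) * (1 / 2)) +
      (kX X s * De s y₂ - kX X s * De s y₁) * (1 / 2) := by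
    funext s
    rw [D_split]
    ring
  have i1 : Integrable (fun s => kX X s * (mn y₂ - mn y₁)) := m.1.mul_const _
  have i2 : Integrable (fun s => (kX X s * De y₂ s - kX X s * De y₁ s) * (1 / 2)) := (a2.1.sub a1.1).mul_const _
  have i3 : Integrable (fun s => (kX X s * De s y₂ - kX X s * De s y₁) * (1 / 2)) := (b2.1.sub b1.1).mul_const _
  have i12 : Integrable (fun s => kX X s * (mn y₂ - mn y₁) + (kX X s * De y₂ s - kX X s * De y₁ s) * (1 / 2)) := i1.add i2
  rw [e]
  refine ⟨i12.add i3, ?_⟩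
  rw [integral_add i12 i3, integral_add i1 i2, integral_mul_const, integral_mul_const, integral_mul_const,
    integral_sub a2.1 a1.1, integral_sub b2.1 b1.1, m.2, b1.2, b2.2, one_mul, sub_self, zero_mul, add_zero, add_sub_cancel_left]
  have c : 21 * J / X ≤ 42 * J := by
    rw [div_le_iff₀ hX0]
    nlinarith
  have d1 := (abs_le.mp (a1.2.trans c))
  have d2 := (abs_le.mp (a2.2.trans c))
  rw [abs_le]
  constructor <;> linarith [d1.1, d1.2, d2.1, d2.2]

end Pool.Agent.Helper26.SO
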